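import Mathlib

namespace Pool.Agent.Results.MP_856f66_gt.Balls

open Metric Set IsUltrametricDist

/-- The closed balls of strictly positive radius, as subsets of `X`. -/
def B0 (X : Type*) [MetricSpace X] : Set (Set X) :=
  {S | ∃ c r, 0 < r ∧ S = closedBall c r}

/-- The spaces of positive-radius closed balls, with the Hausdorff distance, are isometric. -/
def BallIso (X Y : Type*) [MetricSpace X] [MetricSpace Y] : Prop :=
  ∃ e : B0 X ≃ B0 Y, ∀ A B : B0 X,
    hausdorffDist (e A : Set Y) (e B : Set Y) = hausdorffDist (A : Set X) (B : Set X)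

section

variable {X Y : Type*} [MetricSpace X] [MetricSpace Y] [IsUltrametricDist X] [IsUltrametricDist Y]

def bl (x : X) (r : ℝ) (hr : 0 < r) : B0 X := ⟨closedBall x r, x, r, hr, rfl⟩

def P (S : Set X) (r : ℝ) : Prop := ∀ x ∈ S, ∀ y ∈ S, dist x y ≤ r

omit [IsUltrametricDist X] in
lemma ne (A : B0 X) : (A : Set X).Nonempty := by
  obtain ⟨_, c, r, hr, rfl⟩ := A
  exact ⟨c, mem_closedBall_self hr.le⟩

lemma ctr (A : B0 X) {x : X} (hx : x ∈ (A : Set X)) :
    ∃ r, 0 < r ∧ (A : Set X) = closedBall x r := by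
  obtain ⟨_, c, r, hr, rfl⟩ := A
  exact ⟨r, hr, closedBall_eq_of_mem hx⟩

lemma P_ball {S : Set X} {c : X} {r : ℝ} (h : S ⊆ closedBall c r) : P S r := fun x hx y hy =>
  (_root_.dist_triangle_max x c y).trans (max_le (h hx) (by rw [dist_comm]; exact h hy))

omit [IsUltrametricDist X] in
lemma hd_le {A B : B0 X} {r : ℝ} (h : P ((A : Set X) ∪ B) r) :
    hausdorffDist (A : Set X) B ≤ r := by
  obtain ⟨a, ha⟩ := ne A
  obtain ⟨b, hb⟩ := ne B
  exact hausdorffDist_le_of_mem_dist (dist_nonneg.trans (h a (.inl ha) b (.inr hb)))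
    (fun x hx => ⟨b, hb, h x (.inl hx) b (.inr hb)⟩) (fun x hx => ⟨a, ha, h x (.inr hx) a (.inl ha)⟩)

lemma P_of_le' {A B : B0 X} {r : ℝ} (h : hausdorffDist (B : Set X) A ≤ r)
    (hn : ¬ (B : Set X) ⊆ A) : P ((A : Set X) ∪ B) r := by
  have fin : hausdorffEDist (B : Set X) A ≠ ⊤ := by
    refine hausdorffEDist_ne_top_of_nonempty_of_bounded (ne B) (ne A) ?_ ?_
    · obtain ⟨_, c, r, hr, rfl⟩ := B
      exact isBounded_closedBall
    · obtain ⟨_, c, r, hr, rfl⟩ := A
      exact isBounded_closedBall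
  have hA := ne A
  obtain ⟨A, c, s, hs, rfl⟩ := A
  have key : ∀ b ∈ (B : Set X), b ∉ closedBall c s → dist b c ≤ r := fun b hb hb' => by
    refine le_trans ?_ ((infDist_le_hausdorffDist_of_mem hb fin).trans h)
    refine (le_infDist hA).2 fun a ha => ?_
    have h1 := _root_.dist_triangle_max b a c
    have h2 : s < dist b c := not_le.1 hb'
    have h3 : dist a c ≤ s := ha
    rcases le_max_iff.1 h1 with h4 | h4
    · exact h4
    · linarith
  obtain ⟨b, hb, hb'⟩ := not_subset.1 hn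
  have hsr : s ≤ r := (not_le.1 hb').le.trans (key b hb hb')
  refine P_ball (c := c) (union_subset (closedBall_subset_closedBall hsr) fun x hx => ?_)
  by_cases hx' : x ∈ closedBall c s
  · exact closedBall_subset_closedBall hsr hx'
  · exact key x hx hx'

lemma P_of_le {A B : B0 X} {r : ℝ} (h : hausdorffDist (A : Set X) B ≤ r) (hn : A ≠ B) :
    P ((A : Set X) ∪ B) r := by
  by_cases h1 : (B : Set X) ⊆ A
  · have h2 : ¬ (A : Set X) ⊆ B := fun h2 => hn (Subtype.ext (h2.antisymm h1))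
    rw [union_comm]
    exact P_of_le' h h2
  · exact P_of_le' (by rwa [hausdorffDist_comm]) h1

def Is (e : B0 X ≃ B0 Y) : Prop := ∀ A B : B0 X,
  hausdorffDist (e A : Set Y) (e B : Set Y) = hausdorffDist (A : Set X) (B : Set X)

omit [IsUltrametricDist X] [IsUltrametricDist Y] in
lemma Is.symm {e : B0 X ≃ B0 Y} (h : Is e) : Is e.symm := fun A B => by
  rw [← h]; simp

omit [IsUltrametricDist X] in
lemma Is.P {e : B0 X ≃ B0 Y} (h : Is e) {A B : B0 X} {r : ℝ} (hp : P ((A : Set X) ∪ B) r)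
    (hn : A ≠ B) : P ((e A : Set Y) ∪ e B) r :=
  P_of_le (by rw [h]; exact hd_le hp) (e.injective.ne hn)

def M (e : B0 X ≃ B0 Y) (A : B0 X) (B : B0 Y) : Prop :=
  ∀ A' : B0 X, (A' : Set X) ⊆ A ↔ (e A' : Set Y) ⊆ B

omit [IsUltrametricDist X] [IsUltrametricDist Y] in
lemma M.symm {e : B0 X ≃ B0 Y} {A : B0 X} {B : B0 Y} (h : M e A B) : M e.symm B A := fun B' => by
  rw [h]; simp

lemma small (A : B0 X) {x y : X} (hx : x ∈ (A : Set X)) (hxy : x ≠ y) (hy : y ∈ (A : Set X)) :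
    ∃ A1 : B0 X, (A1 : Set X) ⊆ A ∧ x ∈ (A1 : Set X) ∧ y ∉ (A1 : Set X) := by
  obtain ⟨r, hr, hA⟩ := ctr A hx
  have hd : 0 < dist y x := dist_pos.2 hxy.symm
  have h1 : dist y x ≤ r := by rw [hA] at hy; exact hy
  refine ⟨bl x (dist y x / 2) (by positivity), ?_, mem_closedBall_self (by positivity), ?_⟩
  · rw [hA]; exact closedBall_subset_closedBall (by linarith)
  · change ¬ dist y x ≤ dist y x / 2
    linarith

lemma T1 {e : B0 X ≃ B0 Y} (h : Is e) (A : B0 X) (hA : ¬ (A : Set X).Subsingleton) :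
    ∃ B : B0 Y, ¬ (B : Set Y).Subsingleton ∧ M e A B := by
  obtain ⟨c, hc, c', hc', hcc⟩ := not_subsingleton_iff.1 hA
  obtain ⟨A1, h1, -, h2⟩ := small A hc hcc hc'
  have hn : A ≠ A1 := fun h => h2 (h ▸ hc')
  obtain ⟨s, hs, hAs⟩ := ctr A hc
  obtain ⟨y, hy⟩ := ne (e A)
  have k : ∀ A' : B0 X, (A' : Set X) ⊆ A → A ≠ A' → (e A : Set Y) ∪ e A' ⊆ closedBall y s :=
    fun A' hA' hn z hz => h.P (P_ball (c := c) (by rw [← hAs]; simpa using hA')) hn z hz y (.inl hy)
  have k1 : (e A : Set Y) ⊆ closedBall y s := subset_union_left.trans (k A1 h1 hn)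
  refine ⟨bl y s hs, fun hs' => hn (e.injective (Subtype.ext ?_)), fun A' => ⟨fun hA' => ?_,
    fun hA' => ?_⟩⟩
  · rw [(hs'.anti k1).eq_singleton_of_mem hy]
    obtain ⟨z, hz⟩ := ne (e A1)
    have k2 := subset_union_right.trans (k A1 h1 hn)
    rw [(hs'.anti k2).eq_singleton_of_mem hz, hs' (k1 hy) (k2 hz)]
  · by_cases hn' : A = A'
    · exact hn' ▸ k1
    · exact subset_union_right.trans (k A' hA' hn')
  · by_cases hn' : A = A'
    · exact hn' ▸ Subset.rfl
    · have := h.symm.P (P_ball (c := y) (union_subset k1 hA')) (e.injective.ne hn')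
      simp only [Equiv.symm_apply_apply] at this
      rw [hAs]
      exact fun z hz => this z (.inr hz) c (.inl hc)

lemma T2 {e : B0 X ≃ B0 Y} (h : Is e) {A A1 : B0 X} (hA : (A : Set X).Subsingleton)
    (hA1 : ¬ (A1 : Set X).Subsingleton) (hM : M e A1 (e A)) : (e A1 : Set Y).Subsingleton := by
  by_contra hc
  obtain ⟨A2, -, h2⟩ := T1 h.symm (e A1) hc
  have h3 : (A1 : Set X) ⊆ A2 := by simpa using (h2 (e A1)).1 Subset.rfl
  have h4 : (e A : Set Y) ⊆ e A1 := (h2 (e A)).2 (by simpa using ((hM A).2 Subset.rfl).trans h3)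
  have h5 : e A = e A1 := Subtype.ext (h4.antisymm ((hM A1).1 Subset.rfl))
  exact hA1 (e.injective h5 ▸ hA)

def S (e : B0 X ≃ B0 Y) (A : B0 X) (B : B0 Y) : Prop :=
  (¬ (A : Set X).Subsingleton ∧ ¬ (B : Set Y).Subsingleton ∧ M e A B) ∨
  ((A : Set X).Subsingleton ∧ (B : Set Y).Subsingleton ∧ (e A = B ∨
    (¬ (e A : Set Y).Subsingleton ∧ ¬ (e.symm B : Set X).Subsingleton ∧ M e (e.symm B) (e A))))

omit [IsUltrametricDist X] [IsUltrametricDist Y] in
lemma S.symm {e : B0 X ≃ B0 Y} {A : B0 X} {B : B0 Y} (h : S e A B) : S e.symm B A := by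
  rcases h with ⟨a, b, c⟩ | ⟨a, b, c | ⟨c, d, f⟩⟩
  · exact .inl ⟨b, a, c.symm⟩
  · exact .inr ⟨b, a, .inl (by rw [← c]; simp)⟩
  · exact .inr ⟨b, a, .inr ⟨d, c, f.symm⟩⟩

lemma S_total {e : B0 X ≃ B0 Y} (h : Is e) (A : B0 X) : ∃ B, S e A B := by
  by_cases hA : (A : Set X).Subsingleton
  · by_cases hB : (e A : Set Y).Subsingleton
    · exact ⟨e A, .inr ⟨hA, hB, .inl rfl⟩⟩
    · obtain ⟨A1, h1, h2⟩ := T1 h.symm (e A) hB
      exact ⟨e A1, .inr ⟨hA, T2 h hA h1 h2.symm, .inr ⟨hB, by simpa using h1,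
        by simpa using h2.symm⟩⟩⟩
  · obtain ⟨B, h1, h2⟩ := T1 h A hA
    exact ⟨B, .inl ⟨hA, h1, h2⟩⟩

lemma S_diam {e : B0 X ≃ B0 Y} (h : Is e) {A : B0 X} {B : B0 Y} (hS : S e A B) {r : ℝ}
    (hp : P (A : Set X) r) : P (B : Set Y) r := by
  intro y hy y' hy'
  obtain ⟨a, ha⟩ := ne A
  by_cases hyy : y = y'
  · simpa [hyy] using hp a ha a ha
  rcases hS with ⟨-, -, c⟩ | ⟨-, b, -⟩
  · obtain ⟨B1, h1, h2, h3⟩ := small B hy hyy hy'
    have hn : B1 ≠ B := fun h => h3 (h ▸ hy')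
    have hu := union_subset ((c.symm B1).1 h1) ((c.symm B).1 Subset.rfl)
    have := h.P (fun x hx z hz => hp x (hu hx) z (hu hz)) (e.symm.injective.ne hn)
    simp only [Equiv.apply_symm_apply] at this
    exact this y (.inl h2) y' (.inr hy')
  · exact (hyy (b hy hy')).elim

omit [IsUltrametricDist X] [IsUltrametricDist Y] in
lemma S_mono {e : B0 X ≃ B0 Y} {A A' : B0 X} {B B' : B0 Y} (hS : S e A B) (hS' : S e A' B')
    (hA : (A : Set X) ⊆ A') : (B : Set Y) ⊆ B' := by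
  rcases hS' with ⟨-, -, c'⟩ | ⟨a', b', c'⟩
  · rcases hS with ⟨-, -, c⟩ | ⟨-, -, c | ⟨-, -, f⟩⟩
    · simpa using (c' _).1 (((c.symm B).1 Subset.rfl).trans hA)
    · exact c ▸ (c' _).1 hA
    · exact Subset.trans (by simpa using (f _).1 Subset.rfl) ((c' _).1 hA)
  · obtain ⟨a, ha⟩ := ne A
    obtain rfl : A = A' := Subtype.ext (hA.antisymm fun x hx => a' (hA ha) hx ▸ ha)
    rcases hS with ⟨a, -, -⟩ | ⟨-, b, c⟩
    · exact (a a').elim
    rcases c with c | ⟨c, -, f⟩ <;> rcases c' with c' | ⟨c', -, f'⟩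
    · exact c ▸ c' ▸ Subset.rfl
    · exact (c' (c ▸ b)).elim
    · exact (c (c' ▸ b')).elim
    · have : e.symm B = e.symm B' := Subtype.ext
        (((f' _).2 ((f _).1 Subset.rfl)).antisymm ((f _).2 ((f' _).1 Subset.rfl)))
      rw [e.symm.injective this]

def T (e : B0 X ≃ B0 Y) (x : X) (y : Y) : Prop :=
  ∀ A B, S e A B → x ∈ (A : Set X) → y ∈ (B : Set Y)

lemma T_total [CompleteSpace Y] {e : B0 X ≃ B0 Y} (h : Is e) (x : X) : ∃ y, T e x y := by
  choose G hG using S_total h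
  let A : ℕ → B0 X := fun n => bl x (1 / ((n : ℝ) + 1)) Nat.one_div_pos_of_nat
  choose u hu using fun n => ne (G (A n))
  have hm : ∀ {N n : ℕ}, N ≤ n → u n ∈ (G (A N) : Set Y) := fun hn =>
    S_mono (hG _) (hG _) (closedBall_subset_closedBall (Nat.one_div_le_one_div hn)) (hu _)
  have hc : CauchySeq u := cauchySeq_of_le_tendsto_0 (fun N : ℕ => 1 / ((N : ℝ) + 1))
    (fun n m N hn hm' => S_diam h (hG _) (P_ball Subset.rfl) _ (hm hn) _ (hm hm'))
    tendsto_one_div_add_atTop_nhds_zero_nat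
  obtain ⟨y, hy⟩ := cauchySeq_tendsto_of_complete hc
  refine ⟨y, fun A' B hS hx => ?_⟩
  obtain ⟨s, hs, hA⟩ := ctr A' hx
  obtain ⟨N, hN⟩ := exists_nat_one_div_lt hs
  have hB : (G (A N) : Set Y) ⊆ B :=
    S_mono (hG _) hS (by rw [hA]; exact closedBall_subset_closedBall hN.le)
  have hcl : IsClosed (B : Set Y) := by
    obtain ⟨_, c, r, hr, rfl⟩ := B
    exact isClosed_closedBall
  exact hcl.mem_of_tendsto hy (Filter.eventually_atTop.2 ⟨N, fun n hn => hB (hm hn)⟩)

lemma T_lip {e : B0 X ≃ B0 Y} (h : Is e) {x x' : X} {y y' : Y} (h1 : T e x y) (h2 : T e x' y') :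
    dist y y' ≤ dist x x' := by
  refine le_of_forall_gt_imp_ge_of_dense fun r hr => ?_
  have h0 : 0 < r := dist_nonneg.trans_lt hr
  obtain ⟨B, hB⟩ := S_total h (bl x' r h0)
  exact S_diam h hB (P_ball Subset.rfl) _ (h1 _ _ hB hr.le) _
    (h2 _ _ hB (mem_closedBall_self h0.le))

lemma T_symm {e : B0 X ≃ B0 Y} (h : Is e) {x : X} {y : Y} (h1 : T e x y) : T e.symm y x := by
  intro B A hS hy
  obtain ⟨s, hs, hB⟩ := ctr B hy
  obtain ⟨B', hB'⟩ := S_total h (bl x s hs)
  have hy' := h1 _ _ hB' (mem_closedBall_self hs.le)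
  have : (B' : Set Y) ⊆ B := by
    rw [hB]
    exact fun z hz => S_diam h hB' (P_ball Subset.rfl) z hz y hy'
  exact S_mono hB'.symm hS this (mem_closedBall_self hs.le)

lemma back [CompleteSpace X] [CompleteSpace Y] (h : BallIso X Y) : Nonempty (X ≃ᵢ Y) := by
  obtain ⟨e, he⟩ := h
  have he : Is e := he
  choose f hf using T_total he
  choose g hg using T_total he.symm
  refine ⟨⟨⟨f, g, fun x => ?_, fun y => ?_⟩, Isometry.of_dist_eq fun x x' => ?_⟩⟩
  · simpa using T_lip he.symm (hg (f x)) (T_symm he (hf x))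
  · simpa using T_lip he (hf (g y)) (T_symm he.symm (hg y))
  · exact (T_lip he (hf x) (hf x')).antisymm
      (T_lip he.symm (T_symm he (hf x)) (T_symm he (hf x')))

omit [IsUltrametricDist X] in
lemma dense {i : X → Y} (hi : Isometry i) (hd : DenseRange i) : BallIso Y X := by
  have h1 : ∀ B : B0 Y, i ⁻¹' (B : Set Y) ∈ B0 X := by
    rintro ⟨_, c, r, hr, rfl⟩
    obtain ⟨x, hx⟩ := hd.exists_dist_lt c hr
    refine ⟨x, r, hr, ?_⟩
    have : i x ∈ closedBall c r := by rw [mem_closedBall, dist_comm]; exact hx.le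
    simp only [closedBall_eq_of_mem this]
    exact hi.preimage_closedBall x r
  have h2 : ∀ B : B0 Y, closure (i '' (i ⁻¹' (B : Set Y))) = B := by
    rintro ⟨_, c, r, hr, rfl⟩
    exact (closure_minimal (image_preimage_subset _ _) isClosed_closedBall).antisymm
      (hd.subset_closure_image_preimage_of_isOpen (isOpen_closedBall c hr.ne'))
  refine ⟨Equiv.ofBijective (fun B => ⟨_, h1 B⟩) ⟨fun B B' h => Subtype.ext ?_, ?_⟩,
    fun A B => ?_⟩
  · rw [← h2 B, ← h2 B', show i ⁻¹' (B : Set Y) = i ⁻¹' (B' : Set Y) from congrArg Subtype.val h]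
  · rintro ⟨_, c, r, hr, rfl⟩
    exact ⟨bl (i c) r hr, Subtype.ext (hi.preimage_closedBall c r)⟩
  · conv_rhs => rw [← h2 A, ← h2 B, hausdorffDist_closure, hausdorffDist_image hi]
    rfl

end

lemma bsymm {X Y : Type*} [MetricSpace X] [MetricSpace Y] (h : BallIso X Y) : BallIso Y X :=
  let ⟨e, he⟩ := h
  ⟨e.symm, Is.symm he⟩

lemma btrans {X Y Z : Type*} [MetricSpace X] [MetricSpace Y] [MetricSpace Z] (h : BallIso X Y)
    (h' : BallIso Y Z) : BallIso X Z :=
  let ⟨e, he⟩ := h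
  let ⟨e', he'⟩ := h'
  ⟨e.trans e', fun A B => (he' _ _).trans (he A B)⟩

open UniformSpace in
lemma ultra (X : Type*) [MetricSpace X] [IsUltrametricDist X] :
    IsUltrametricDist (Completion X) where
  dist_triangle_max x y z := by
    refine Completion.induction_on₃ x y z (isClosed_le (by fun_prop) (by fun_prop)) fun a b c => ?_
    simpa [Completion.dist_eq] using _root_.dist_triangle_max a b c

open UniformSpace in
theorem result (X Y : Type*) [MetricSpace X] [MetricSpace Y] [IsUltrametricDist X]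
    [IsUltrametricDist Y] [Nonempty X] [Nonempty Y] :
    Nonempty (Completion X ≃ᵢ Completion Y) ↔ BallIso X Y := by
  haveI := ultra X
  haveI := ultra Y
  have hX : BallIso (Completion X) X := dense Completion.coe_isometry Completion.denseRange_coe
  have hY : BallIso (Completion Y) Y := dense Completion.coe_isometry Completion.denseRange_coe
  constructor
  · rintro ⟨φ⟩
    exact btrans (btrans (bsymm hX) (bsymm (dense φ.isometry φ.surjective.denseRange))) hY
  · intro h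
    exact back (btrans (btrans hX h) (bsymm hY))

end Pool.Agent.Results.MP_856f66_gt.Balls
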